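import Pool.Agent.AIM.Im
import Pool.Agent.ALC.RA
import Pool.Agent.ALC.RB
import Pool.Agent.ALC.RC
import Pool.Agent.ALC.Cr
import Pool.Agent.ALB.Lim
import Pool.Agent.ALB.Res
import Pool.Agent.ALB.NoAdj

/-!
# AIM CORE: Albertson's conjecture from nearly complete strong immersions or near-cliques
-/

set_option autoImplicit false

namespace Pool.Agent.AIM

open Pool.Agent.ALB Pool.Agent.ALC

theorem core : ∃ ε : ℝ, 0 < ε ∧ ∃ k₀ : ℕ, ∀ (n : ℕ) (G : SimpleGraph (Fin n)) (k : ℕ), k₀ ≤ k →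
    ∀ A : Finset (Fin n), VC (G.comap (Subtype.val : {x // x ∈ A} → Fin n)) (k - 1) →
      ∀ m : ℕ, m ≤ k → ∀ Γ : SimpleGraph (Fin m),
          (1 - ε) * (k : ℝ) ^ 2 ≤ ({p : Fin m × Fin m | Γ.Adj p.1 p.2}.ncard : ℝ) →
          SImm Γ (G.comap (Subtype.val : {x // x ∈ A} → Fin n)) →
    ∀ D : Drw G, crK k ≤ D.cr := by
  classical
  obtain ⟨c, hc0, hc1, hc2⟩ := exists_limit
  rcases hc0.eq_or_lt with h0 | hpos
  · refine ⟨1, one_pos, 0, ?_⟩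
    intro n G k _ _ _ _ _ _ _ _ D
    have h1 := hc1 k
    rw [← h0, zero_mul] at h1
    have h2 : crK k = 0 := by exact_mod_cast le_antisymm h1 (Nat.cast_nonneg _)
    rw [h2]
    exact Nat.zero_le _
  have hc : Lim c := ⟨hpos, hc1, hc2⟩
  obtain ⟨C, hC, r3, h3⟩ := rC hc
  obtain ⟨ε', hε', r1, h1⟩ := rA hc hC (show (0:ℝ) < 1/6 by norm_num)
  obtain ⟨r2, h2⟩ := rB hc
  obtain ⟨η₁, hη₁, r4, h4⟩ := casI hc hC hε'
  obtain ⟨ε, hε, hεa, hεc⟩ : ∃ ε : ℝ, 0 < ε ∧ ε ≤ η₁ ∧ ε ≤ 1 :=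
    ⟨min η₁ 1, lt_min hη₁ one_pos, min_le_left _ _, min_le_right _ _⟩
  refine ⟨ε, hε, r1 + r2 + r3 + r4 + 2, ?_⟩
  intro n G k hk A hA m hm Γ hΓ hI D
  obtain ⟨r, rfl⟩ : ∃ r, k = r + 1 := ⟨k - 1, by omega⟩
  rw [Nat.add_sub_cancel] at hA
  have hr0 : 0 < r := by omega
  have hrk : (r : ℝ) ^ 2 ≤ ((r + 1 : ℕ) : ℝ) ^ 2 := by
    push_cast
    exact pow_le_pow_left₀ (Nat.cast_nonneg _) (by linarith) 2
  have hcmp : ∀ η : ℝ, ε ≤ η → (1 - η) * (r : ℝ) ^ 2 ≤ (1 - ε) * ((r + 1 : ℕ) : ℝ) ^ 2 := by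
    intro η hη
    calc (1 - η) * (r : ℝ) ^ 2 ≤ (1 - ε) * (r : ℝ) ^ 2 :=
          mul_le_mul_of_nonneg_right (by linarith) (by positivity)
      _ ≤ (1 - ε) * ((r + 1 : ℕ) : ℝ) ^ 2 := mul_le_mul_of_nonneg_left hrk (by linarith)
  obtain ⟨D1, hD1⟩ := exists_comap D (Subtype.val : {x // x ∈ A} → Fin n) Subtype.val_injective
  obtain ⟨D2, hD2, hNA⟩ := exists_noAdj D1
  by_cases hbig : C * (r:ℝ) ≤ (Fintype.card {x // x ∈ A} : ℝ)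
  · exact (h3 _ _ _ D2 hNA r (by omega) (fun x => vc_deg hA x) hbig).trans (hD2.trans hD1)
  have hCr : (Fintype.card {x // x ∈ A} : ℝ) ≤ C * (r:ℝ) := (not_le.1 hbig).le
  by_cases hsm : 6 * Fintype.card {x // x ∈ A} ≤ 7 * r
  · exact (h2 _ _ _ D2 r (by omega) hA hsm).trans (hD2.trans hD1)
  have hsm' : 7 * r ≤ 6 * Fintype.card {x // x ∈ A} := (not_le.1 hsm).le
  by_cases hdeg : ∃ v : {x // x ∈ A},
      ({x | (G.comap (Subtype.val : {x // x ∈ A} → Fin n)).Adj v x}.ncard : ℝ) ≤ (1 + ε') * (r : ℝ)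
  · refine (h1 _ _ _ D2 hNA r (by omega) hA ?_ hCr hdeg).trans (hD2.trans hD1)
    have h7 : 7 * (r:ℝ) ≤ 6 * (Fintype.card {x // x ∈ A} : ℝ) := by exact_mod_cast hsm'
    linarith
  push Not at hdeg
  exact (h4 _ _ _ D2 hNA r (by omega) hCr (fun x => (hdeg x).le) m hm Γ
    ((hcmp η₁ hεa).trans hΓ) hI).trans (hD2.trans hD1)

end Pool.Agent.AIM
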