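import Pool.Agent.ALC.Psg

/-!
# AIM GI: drawing a graph along edge-disjoint paths, unused edges

The proof is the one of `Pool.Agent.ALC.gain`, with the count of the common vertices replaced by:
the sets `E p` are pairwise disjoint, so at most `card V` of them have an edge at a vertex `x`.
-/

set_option autoImplicit false

namespace Pool.Agent.AIM

open Pool.Agent.ALB Pool.Agent.ALC

/-- the number of common vertices -/
private lemma gi_on {V ι : Type} [Fintype V] [Fintype ι]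
    (P : Finset (Sym2 ι)) (E : Sym2 ι → Finset (Sym2 V))
    (hdis : ∀ p ∈ P, ∀ q ∈ P, p ≠ q → ∀ e ∈ E p, e ∉ E q)
    (B : Sym2 ι → Sym2 ι → Set V)
    (hB : ∀ p ∈ P, ∀ q ∈ P, ∀ x ∈ B p q, (∃ e ∈ E p, x ∈ e) ∧ (∃ e ∈ E q, x ∈ e)) :
    ∑ p ∈ P, ∑ q ∈ P, (B p q).ncard ≤ Fintype.card V * Fintype.card V ^ 2 := by
  classical
  have h1 : ∀ x, ∑ p ∈ P, (if ∃ e ∈ E p, x ∈ e then 1 else 0) ≤ Fintype.card V := by
    intro x
    rw [← Finset.card_filter]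
    have hex : ∀ p ∈ P.filter (fun p => ∃ e ∈ E p, x ∈ e), ∃ y : V, s(x, y) ∈ E p := by
      intro p hp
      obtain ⟨_, e, he, hx⟩ := Finset.mem_filter.1 hp
      obtain ⟨y, rfl⟩ := hx
      exact ⟨y, he⟩
    have : Nonempty V := ⟨x⟩
    choose! g hg using hex
    have hinj : Set.InjOn g (P.filter (fun p => ∃ e ∈ E p, x ∈ e) : Finset (Sym2 ι)) := by
      intro p hp q hq hpq
      by_contra hne
      have hp' : p ∈ P := (Finset.mem_filter.1 hp).1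
      have hq' : q ∈ P := (Finset.mem_filter.1 hq).1
      have h2 := hg p hp
      have h3 := hg q hq
      rw [← hpq] at h3
      exact hdis p hp' q hq' hne _ h2 h3
    have h4 := Finset.card_le_card_of_injOn g (t := Finset.univ) (fun p _ => Finset.mem_univ _) hinj
    rwa [Finset.card_univ] at h4
  calc ∑ p ∈ P, ∑ q ∈ P, (B p q).ncard
      ≤ ∑ p ∈ P, ∑ q ∈ P, ∑ x : V, (if ∃ e ∈ E p, x ∈ e then 1 else 0) *
          (if ∃ e ∈ E q, x ∈ e then 1 else 0) := by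
        refine Finset.sum_le_sum fun p hp => Finset.sum_le_sum fun q hq => ?_
        have h2 : B p q ⊆ ((Finset.univ.filter fun x : V =>
            (∃ e ∈ E p, x ∈ e) ∧ (∃ e ∈ E q, x ∈ e) : Finset V) : Set V) := by
          intro x hx
          rw [Finset.mem_coe, Finset.mem_filter]
          exact ⟨Finset.mem_univ _, hB p hp q hq x hx⟩
        refine (Set.ncard_le_ncard h2 (Finset.finite_toSet _)).trans ?_
        rw [Set.ncard_coe_finset, Finset.card_filter]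
        refine Finset.sum_le_sum fun x _ => ?_
        by_cases ha : ∃ e ∈ E p, x ∈ e <;> by_cases hb : ∃ e ∈ E q, x ∈ e
        · rw [if_pos ⟨ha, hb⟩, if_pos ha, if_pos hb]
        · rw [if_neg (fun h => hb h.2)]
          exact Nat.zero_le _
        · rw [if_neg (fun h => ha h.1)]
          exact Nat.zero_le _
        · rw [if_neg (fun h => ha h.1)]
          exact Nat.zero_le _
    _ = ∑ x : V, (∑ p ∈ P, (if ∃ e ∈ E p, x ∈ e then 1 else 0)) *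
          (∑ q ∈ P, (if ∃ e ∈ E q, x ∈ e then 1 else 0)) := by
        rw [Finset.sum_congr rfl fun p _ => Finset.sum_comm, Finset.sum_comm]
        refine Finset.sum_congr rfl fun x _ => ?_
        rw [Finset.sum_mul_sum]
    _ ≤ ∑ _x : V, Fintype.card V ^ 2 := by
        refine Finset.sum_le_sum fun x _ => ?_
        rw [pow_two]
        exact Nat.mul_le_mul (h1 x) (h1 x)
    _ = Fintype.card V * Fintype.card V ^ 2 := by
        rw [Finset.sum_const, Finset.card_univ, smul_eq_mul]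

/-- Drawing `Γ` along edge-disjoint paths; the edges in `Λ` are not used. -/
theorem gainI {V ι : Type} [Fintype V] [Fintype ι] {G : SimpleGraph V} (D : Drw G)
    (Γ : SimpleGraph ι) (Y : ι → V) (hY : Function.Injective Y)
    (E : Sym2 ι → Finset (Sym2 V))
    (hE : ∀ p ∈ Γ.edgeSet, ∀ e ∈ E p, e ∈ G.edgeSet)
    (hW : ∀ i j, Γ.Adj i j → ∃ W : G.Walk (Y i) (Y j), ∀ e ∈ W.edges, e ∈ E s(i, j))
    (hT : ∀ i j, Γ.Adj i j → ∀ e ∈ E s(i, j), ∀ x ∈ e, x ∈ Set.range Y → x = Y i ∨ x = Y j)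
    (hdis : ∀ p ∈ Γ.edgeSet, ∀ q ∈ Γ.edgeSet, p ≠ q → ∀ e ∈ E p, e ∉ E q)
    (Λ : Finset (Sym2 V)) (hΛ : ∀ e ∈ Λ, e ∈ G.edgeSet)
    (hEΛ : ∀ p ∈ Γ.edgeSet, ∀ e ∈ E p, e ∉ Λ) :
    ∃ D' : Drw Γ, D'.cr + ∑ e ∈ Λ, ∑ e' ∈ Λ, D.N e e' ≤
      D.cr + Fintype.card V * Fintype.card V ^ 2 := by
  classical
  obtain ⟨D', hD'⟩ := psg D Γ Y hY E hE hW hT hdis
  refine ⟨D', ?_⟩
  have hB := gi_on (ed Γ) E
    (fun p hp q hq => hdis p (mem_ed.1 hp) q (mem_ed.1 hq))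
    (fun p q => {x : V | x ∉ Set.range Y ∧ (∃ e ∈ E p, x ∈ e) ∧ (∃ f ∈ E q, x ∈ f)})
    (fun p _ q _ x hx => ⟨hx.2.1, hx.2.2⟩)
  have hpd : Set.PairwiseDisjoint (↑(ed Γ) : Set (Sym2 ι)) E := by
    intro p hp q hq hpq
    rw [Function.onFun, Finset.disjoint_left]
    exact fun e he => hdis p (mem_ed.1 (Finset.mem_coe.1 hp)) q
      (mem_ed.1 (Finset.mem_coe.1 hq)) hpq e he
  have hA : ∑ p ∈ ed Γ, ∑ q ∈ ed Γ, ∑ e ∈ E p, ∑ e' ∈ E q, D.N e e' =
      ∑ e ∈ (ed Γ).biUnion E, ∑ e' ∈ (ed Γ).biUnion E, D.N e e' := by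
    rw [Finset.sum_biUnion hpd]
    refine Finset.sum_congr rfl fun p _ => ?_
    rw [Finset.sum_comm]
    refine Finset.sum_congr rfl fun e _ => ?_
    rw [Finset.sum_biUnion hpd]
  have hAsub : (ed Γ).biUnion E ⊆ ed G := by
    intro e he
    obtain ⟨p, hp, he⟩ := Finset.mem_biUnion.1 he
    exact mem_ed.2 (hE p (mem_ed.1 hp) e he)
  have hΛsub : Λ ⊆ ed G := fun e he => mem_ed.2 (hΛ e he)
  have hdj : Disjoint ((ed Γ).biUnion E) Λ := by
    rw [Finset.disjoint_left]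
    intro e he
    obtain ⟨p, hp, he⟩ := Finset.mem_biUnion.1 he
    exact hEΛ p (mem_ed.1 hp) e he
  have hsum : ∑ e ∈ (ed Γ).biUnion E, ∑ e' ∈ (ed Γ).biUnion E, D.N e e' +
      ∑ e ∈ Λ, ∑ e' ∈ Λ, D.N e e' ≤ D.cr := by
    calc _ ≤ ∑ e ∈ (ed Γ).biUnion E, ∑ e' ∈ ed G, D.N e e' + ∑ e ∈ Λ, ∑ e' ∈ ed G, D.N e e' :=
          Nat.add_le_add
            (Finset.sum_le_sum fun e _ => Finset.sum_le_sum_of_subset hAsub)
            (Finset.sum_le_sum fun e _ => Finset.sum_le_sum_of_subset hΛsub)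
      _ = ∑ e ∈ (ed Γ).biUnion E ∪ Λ, ∑ e' ∈ ed G, D.N e e' := (Finset.sum_union hdj).symm
      _ ≤ ∑ e ∈ ed G, ∑ e' ∈ ed G, D.N e e' :=
          Finset.sum_le_sum_of_subset (Finset.union_subset hAsub hΛsub)
      _ = D.cr := rfl
  have hsplit : ∑ p ∈ ed Γ, ∑ q ∈ ed Γ, ((∑ e ∈ E p, ∑ f ∈ E q, D.N e f) +
      {x : V | x ∉ Set.range Y ∧ (∃ e ∈ E p, x ∈ e) ∧ (∃ f ∈ E q, x ∈ f)}.ncard) =
      ∑ p ∈ ed Γ, ∑ q ∈ ed Γ, ∑ e ∈ E p, ∑ f ∈ E q, D.N e f +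
        ∑ p ∈ ed Γ, ∑ q ∈ ed Γ,
          {x : V | x ∉ Set.range Y ∧ (∃ e ∈ E p, x ∈ e) ∧ (∃ f ∈ E q, x ∈ f)}.ncard := by
    simp only [Finset.sum_add_distrib]
  rw [hsplit, hA] at hD'
  omega

end Pool.Agent.AIM
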