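import Pool.Agent.AIM.Gi
import Pool.Agent.ALC.Sat
import Pool.Agent.ALC.Smp

/-!
# AIM GL: a nearly complete immersed graph and many unused edges

`cmp` compares `crK` of two nearly equal numbers; `glI` is the analogue of `Pool.Agent.ALC.gl` for
edge-disjoint paths and a nearly complete graph on `m ≤ r + 1` terminals.
-/

set_option autoImplicit false

namespace Pool.Agent.AIM

open Pool.Agent.ALB Pool.Agent.ALC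

private theorem desc4 (m : ℕ) : (m + 4).descFactorial 4 =
    (m + 1) * ((m + 2) * ((m + 3) * (m + 4))) := by
  rw [Nat.descFactorial_succ, Nat.descFactorial_succ, Nat.descFactorial_succ,
    Nat.descFactorial_succ, Nat.descFactorial_zero, mul_one]
  rfl

private theorem choose_up (r : ℕ) (hr : 3 ≤ r) : 24 * (r + 1).choose 4 ≤ r ^ 4 := by
  have h1 := Nat.descFactorial_eq_factorial_mul_choose (r + 1) 4
  have h2 : Nat.factorial 4 = 24 := rfl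
  rw [h2] at h1
  rw [← h1]
  obtain ⟨m, rfl⟩ := Nat.exists_eq_add_of_le hr
  have h3 : 3 + m + 1 = m + 4 := by omega
  rw [h3, desc4]
  nlinarith [Nat.zero_le m, Nat.zero_le (m ^ 2), Nat.zero_le (m ^ 3)]

private theorem choose_dn (k : ℕ) : (k + 1) ^ 4 ≤ 24 * (k + 4).choose 4 := by
  have h1 := Nat.descFactorial_eq_factorial_mul_choose (k + 4) 4
  have h2 : Nat.factorial 4 = 24 := rfl
  rw [h2] at h1
  rw [← h1, desc4]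
  nlinarith [Nat.zero_le k, Nat.zero_le (k ^ 2), Nat.zero_le (k ^ 3)]

theorem cmp {c : ℝ} (hc : Lim c) {δ : ℝ} (hδ : 0 < δ) : ∃ η : ℝ, 0 < η ∧ ∃ r₀ : ℕ,
    ∀ r m : ℕ, r₀ ≤ r → (1 - η) * (r : ℝ) ^ 2 ≤ (m : ℝ) ^ 2 →
      (crK (r + 1) : ℝ) ≤ (crK (m + 1) : ℝ) + δ * (r : ℝ) ^ 4 := by
  have hcp := hc.pos
  obtain ⟨d, hd0, hdδ, hdc⟩ : ∃ d : ℝ, 0 < d ∧ d ≤ δ ∧ d ≤ c :=
    ⟨min δ c, lt_min hδ hcp, min_le_left _ _, min_le_right _ _⟩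
  obtain ⟨a, ha, hge⟩ := hc.ge d hd0
  obtain ⟨η, hη0, hη1, hη2⟩ : ∃ η : ℝ, 0 < η ∧ η ≤ 1 / 8 ∧ 8 * η * c ≤ δ := by
    refine ⟨min (1 / 8) (δ / (8 * c)), lt_min (by norm_num) (by positivity), min_le_left _ _, ?_⟩
    have h1 : min (1 / 8) (δ / (8 * c)) ≤ δ / (8 * c) := min_le_right _ _
    have h2 : δ / (8 * c) * (8 * c) = δ := by field_simp
    nlinarith
  obtain ⟨N, hN⟩ := exists_nat_ge (2 / η)
  refine ⟨η, hη0, N + 2 * a + 8, ?_⟩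
  intro r m hr hm
  have hr8 : (8 : ℝ) ≤ (r : ℝ) := by exact_mod_cast (by omega : 8 ≤ r)
  have hr0 : (0 : ℝ) < (r : ℝ) := by linarith
  have hrη : 2 ≤ (r : ℝ) * η := by
    have h1 : 2 / η ≤ (r : ℝ) := hN.trans (by exact_mod_cast (by omega : N ≤ r))
    exact (div_le_iff₀ hη0).1 h1
  have hm0 : (0 : ℝ) ≤ (m : ℝ) := Nat.cast_nonneg _
  have hmr : (1 - η) * (r : ℝ) ≤ (m : ℝ) := by
    have h1 : ((1 - η) * (r : ℝ)) ^ 2 ≤ (m : ℝ) ^ 2 := by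
      refine le_trans ?_ hm
      have h2 : (1 - η) ^ 2 ≤ 1 - η := by nlinarith
      calc ((1 - η) * (r : ℝ)) ^ 2 = (1 - η) ^ 2 * (r : ℝ) ^ 2 := by ring
        _ ≤ (1 - η) * (r : ℝ) ^ 2 := mul_le_mul_of_nonneg_right h2 (by positivity)
    exact (abs_le_of_sq_le_sq' h1 hm0).2
  have hm2 : (1 - 2 * η) * (r : ℝ) ≤ (m : ℝ) - 2 := by nlinarith
  have hm6 : (6 : ℝ) ≤ (m : ℝ) := by nlinarith
  have hm6' : 6 ≤ m := by exact_mod_cast hm6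
  have hma : a ≤ m + 1 := by
    have h1 : (r : ℝ) / 2 ≤ (m : ℝ) := by nlinarith
    have h2 : (2 * a : ℝ) ≤ (r : ℝ) := by exact_mod_cast (by omega : 2 * a ≤ r)
    have h3 : (a : ℝ) ≤ (m : ℝ) := by linarith
    have h4 : a ≤ m := by exact_mod_cast h3
    omega
  obtain ⟨k, rfl⟩ : ∃ k, m = k + 3 := ⟨m - 3, by omega⟩
  have h1 := hge (k + 3 + 1) hma
  have h2 : (((k + 1) ^ 4 : ℕ) : ℝ) ≤ ((24 * (k + 4).choose 4 : ℕ) : ℝ) := by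
    exact_mod_cast choose_dn k
  push_cast at h2 hm2
  have h3 : (1 - 2 * η) * (r : ℝ) ≤ (k : ℝ) + 1 := by linarith
  have h30 : 0 ≤ (1 - 2 * η) * (r : ℝ) := mul_nonneg (by linarith) hr0.le
  have h4 : ((1 - 2 * η) * (r : ℝ)) ^ 4 ≤ ((k : ℝ) + 1) ^ 4 := pow_le_pow_left₀ h30 h3 4
  have h5 : 1 - 8 * η ≤ (1 - 2 * η) ^ 4 := by
    have h6 : (1 - 2 * η) ^ 4 - (1 - 8 * η) = 24 * η ^ 2 - 32 * η ^ 3 + 16 * η ^ 4 := by ring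
    have h7 : 0 ≤ 24 * η ^ 2 - 32 * η ^ 3 := by
      have : 24 * η ^ 2 - 32 * η ^ 3 = η ^ 2 * (24 - 32 * η) := by ring
      rw [this]
      exact mul_nonneg (by positivity) (by linarith)
    have h8 : 0 ≤ η ^ 4 := by positivity
    linarith
  have hr4 : (0 : ℝ) < (r : ℝ) ^ 4 := by positivity
  have h6 : (1 - 8 * η) * (r : ℝ) ^ 4 ≤ 24 * ((k + 4).choose 4 : ℝ) := by
    calc (1 - 8 * η) * (r : ℝ) ^ 4 ≤ (1 - 2 * η) ^ 4 * (r : ℝ) ^ 4 :=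
          mul_le_mul_of_nonneg_right h5 hr4.le
      _ = ((1 - 2 * η) * (r : ℝ)) ^ 4 := by ring
      _ ≤ ((k : ℝ) + 1) ^ 4 := h4
      _ ≤ _ := h2
  have h7 : (c - d) * ((1 - 8 * η) * (r : ℝ) ^ 4) ≤ 24 * (crK (k + 3 + 1) : ℝ) := by
    calc (c - d) * ((1 - 8 * η) * (r : ℝ) ^ 4) ≤ (c - d) * (24 * ((k + 4).choose 4 : ℝ)) :=
          mul_le_mul_of_nonneg_left h6 (by linarith)
      _ = 24 * ((c - d) * ((k + 3 + 1).choose 4 : ℝ)) := by ring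
      _ ≤ 24 * (crK (k + 3 + 1) : ℝ) := by linarith
  have h8 : 24 * (crK (r + 1) : ℝ) ≤ c * (r : ℝ) ^ 4 := by
    have h9 := hc.le (r + 1)
    have h10 : 24 * ((r + 1).choose 4 : ℝ) ≤ (r : ℝ) ^ 4 := by
      exact_mod_cast choose_up r (by omega)
    calc 24 * (crK (r + 1) : ℝ) ≤ 24 * (c * ((r + 1).choose 4 : ℝ)) := by linarith
      _ = c * (24 * ((r + 1).choose 4 : ℝ)) := by ring
      _ ≤ c * (r : ℝ) ^ 4 := mul_le_mul_of_nonneg_left h10 hcp.le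
  have h11 : c - (c - d) * (1 - 8 * η) ≤ 2 * δ := by
    have : c - (c - d) * (1 - 8 * η) = d + 8 * η * c - 8 * η * d := by ring
    rw [this]
    have : 0 ≤ 8 * η * d := by positivity
    linarith
  have h12 : (c - (c - d) * (1 - 8 * η)) * (r : ℝ) ^ 4 ≤ 2 * δ * (r : ℝ) ^ 4 :=
    mul_le_mul_of_nonneg_right h11 hr4.le
  have h13 : 0 < δ * (r : ℝ) ^ 4 := mul_pos hδ hr4
  nlinarith [h7, h8, h12, h13]

theorem glI {c : ℝ} (hc : Lim c) {C ρ : ℝ} (hC : 0 < C) (hρ : 0 < ρ) :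
    ∃ η : ℝ, 0 < η ∧ ∃ r₀ : ℕ, ∀ (V : Type) (_ : Fintype V) (G : SimpleGraph V) (D : Drw G),
      D.NoAdj → ∀ r : ℕ, r₀ ≤ r → (Fintype.card V : ℝ) ≤ C * (r : ℝ) →
      ∀ m : ℕ, m ≤ r + 1 → ∀ (Γ : SimpleGraph (Fin m)) (Y : Fin m → V)
        (E : Sym2 (Fin m) → Finset (Sym2 V)) (Λ : Finset (Sym2 V)), Function.Injective Y →
        (1 - η) * (r : ℝ) ^ 2 ≤ ({p : Fin m × Fin m | Γ.Adj p.1 p.2}.ncard : ℝ) →
        (∀ p ∈ Γ.edgeSet, ∀ e ∈ E p, e ∈ G.edgeSet) →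
        (∀ i j, Γ.Adj i j → ∃ W : G.Walk (Y i) (Y j), ∀ e ∈ W.edges, e ∈ E s(i, j)) →
        (∀ i j, Γ.Adj i j → ∀ e ∈ E s(i, j), ∀ x ∈ e, x ∈ Set.range Y → x = Y i ∨ x = Y j) →
        (∀ p ∈ Γ.edgeSet, ∀ q ∈ Γ.edgeSet, p ≠ q → ∀ e ∈ E p, e ∉ E q) →
        (∀ e ∈ Λ, e ∈ G.edgeSet) → (∀ p ∈ Γ.edgeSet, ∀ e ∈ E p, e ∉ Λ) →
        ρ * (r : ℝ) ^ 2 ≤ (Λ.card : ℝ) → crK (r + 1) ≤ D.cr := by
  obtain ⟨a, ha4, ha⟩ := hc.ge (c / 2) (half_pos hc.pos)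
  have haK : crK a ≠ 0 := by
    intro h0
    have h1 := ha a le_rfl
    rw [h0] at h1
    have h2 : (0 : ℝ) < (c - c / 2) * (a.choose 4 : ℝ) := by
      apply mul_pos
      · have := hc.pos
        linarith
      · exact_mod_cast Nat.choose_pos ha4
    simp only [Nat.cast_zero] at h1
    linarith
  obtain ⟨κ, hκ, r₁, H1⟩ := sat haK hC hρ
  obtain ⟨η₁, hη₁, r₂, H2⟩ := smp hc (show (0 : ℝ) < κ / 64 by positivity)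
  obtain ⟨η₂, hη₂, r₃, H3⟩ := cmp hc (show (0 : ℝ) < κ / 4 by positivity)
  obtain ⟨η, hη, hηa, hηb, hηc⟩ : ∃ η : ℝ, 0 < η ∧ η ≤ η₁ / 4 ∧ η ≤ η₂ ∧ η ≤ 1 / 2 :=
    ⟨min (η₁ / 4) (min η₂ (1 / 2)), lt_min (by positivity) (lt_min hη₂ (by norm_num)),
      min_le_left _ _, (min_le_right _ _).trans (min_le_left _ _),
      (min_le_right _ _).trans (min_le_right _ _)⟩
  obtain ⟨N1, hN1⟩ := exists_nat_ge (3 / η)
  obtain ⟨N2, hN2⟩ := exists_nat_ge (2 * C ^ 3 / κ)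
  refine ⟨η, hη, r₁ + 2 * r₂ + r₃ + N1 + N2 + 4, ?_⟩
  intro V _ G D hD r hr hV m hm Γ Y E Λ hY hΓ hE hW hT hdis hΛ hEΛ hcard
  have hr1 : (1 : ℝ) ≤ (r : ℝ) := by exact_mod_cast (by omega : 1 ≤ r)
  have hr0 : (0 : ℝ) < (r : ℝ) := by linarith
  have hrη : 3 ≤ (r : ℝ) * η := by
    have h1 : 3 / η ≤ (r : ℝ) := hN1.trans (by exact_mod_cast (by omega : N1 ≤ r))
    exact (div_le_iff₀ hη).1 h1
  have hrC : 2 * C ^ 3 ≤ (r : ℝ) * κ := by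
    have h1 : 2 * C ^ 3 / κ ≤ (r : ℝ) := hN2.trans (by exact_mod_cast (by omega : N2 ≤ r))
    exact (div_le_iff₀ hκ).1 h1
  have hmr : (m : ℝ) ≤ (r : ℝ) + 1 := by exact_mod_cast hm
  have hm0 : (0 : ℝ) ≤ (m : ℝ) := Nat.cast_nonneg _
  -- the number of pairs
  have htot : {p : Fin m × Fin m | Γ.Adj p.1 p.2}.ncard + miss Γ = m * m := by
    have h1 := Set.ncard_add_ncard_compl {p : Fin m × Fin m | Γ.Adj p.1 p.2}
    have h2 : Nat.card (Fin m × Fin m) = m * m := by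
      rw [Nat.card_eq_fintype_card, Fintype.card_prod, Fintype.card_fin]
    rw [h2] at h1
    exact h1
  have htotR : ({p : Fin m × Fin m | Γ.Adj p.1 p.2}.ncard : ℝ) + (miss Γ : ℝ) = (m : ℝ) ^ 2 := by
    have h1 : (({p : Fin m × Fin m | Γ.Adj p.1 p.2}.ncard + miss Γ : ℕ) : ℝ) = ((m * m : ℕ) : ℝ) := by
      rw [htot]
    push_cast at h1
    rw [h1]
    ring
  have hmiss0 : (0 : ℝ) ≤ (miss Γ : ℝ) := Nat.cast_nonneg _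
  have hmsq : (1 - η) * (r : ℝ) ^ 2 ≤ (m : ℝ) ^ 2 := by linarith
  have hmsq2 : (r : ℝ) ^ 2 / 2 ≤ (m : ℝ) ^ 2 := by nlinarith [sq_nonneg (r : ℝ)]
  have hmle : (m : ℝ) ^ 2 ≤ ((r : ℝ) + 1) ^ 2 := pow_le_pow_left₀ hm0 hmr 2
  have hmiss : (miss Γ : ℝ) ≤ η₁ * (m : ℝ) ^ 2 := by
    have h1 : (miss Γ : ℝ) ≤ ((r : ℝ) + 1) ^ 2 - (1 - η) * (r : ℝ) ^ 2 := by linarith
    have h2 : ((r : ℝ) + 1) ^ 2 - (1 - η) * (r : ℝ) ^ 2 ≤ 2 * η * (r : ℝ) ^ 2 := by nlinarith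
    have h3 : 2 * η * (r : ℝ) ^ 2 ≤ 4 * η * (m : ℝ) ^ 2 := by nlinarith
    have h4 : 4 * η * (m : ℝ) ^ 2 ≤ η₁ * (m : ℝ) ^ 2 :=
      mul_le_mul_of_nonneg_right (by linarith) (by positivity)
    linarith
  have hm2 : r₂ ≤ m := by
    have h1 : (r : ℝ) / 2 ≤ (m : ℝ) := by
      have h2 : ((r : ℝ) / 2) ^ 2 ≤ (m : ℝ) ^ 2 := by nlinarith [sq_nonneg (r : ℝ)]
      exact (abs_le_of_sq_le_sq' h2 hm0).2
    have h2 : (2 * r₂ : ℝ) ≤ (r : ℝ) := by exact_mod_cast (by omega : 2 * r₂ ≤ r)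
    have h3 : (r₂ : ℝ) ≤ (m : ℝ) := by linarith
    exact_mod_cast h3
  have h1 := H1 V inferInstance G D hD r (by omega) hV Λ hΛ hcard
  obtain ⟨D', hD'⟩ := gainI D Γ Y hY E hE hW hT hdis Λ hΛ hEΛ
  have h2 := H2 m hm2 Γ hmiss D'
  have h3 := H3 r m (by omega) (le_trans (mul_le_mul_of_nonneg_right (by linarith) (by positivity))
    hmsq)
  have h4 : (D'.cr : ℝ) + ((∑ e ∈ Λ, ∑ e' ∈ Λ, D.N e e' : ℕ) : ℝ) ≤
      (D.cr : ℝ) + (Fintype.card V : ℝ) * (Fintype.card V : ℝ) ^ 2 := by exact_mod_cast hD'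
  have hV0 : (0 : ℝ) ≤ (Fintype.card V : ℝ) := Nat.cast_nonneg _
  have h5 : (Fintype.card V : ℝ) * (Fintype.card V : ℝ) ^ 2 ≤ C ^ 3 * (r : ℝ) ^ 3 := by
    calc (Fintype.card V : ℝ) * (Fintype.card V : ℝ) ^ 2 = (Fintype.card V : ℝ) ^ 3 := by ring
      _ ≤ (C * (r : ℝ)) ^ 3 := pow_le_pow_left₀ hV0 hV 3
      _ = C ^ 3 * (r : ℝ) ^ 3 := by ring
  have h6 : C ^ 3 * (r : ℝ) ^ 3 ≤ κ / 2 * (r : ℝ) ^ 4 := by
    have h7 : 0 ≤ (r : ℝ) ^ 3 := by positivity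
    have h8 : C ^ 3 ≤ κ / 2 * (r : ℝ) := by linarith
    calc C ^ 3 * (r : ℝ) ^ 3 ≤ κ / 2 * (r : ℝ) * (r : ℝ) ^ 3 := mul_le_mul_of_nonneg_right h8 h7
      _ = κ / 2 * (r : ℝ) ^ 4 := by ring
  have h7 : (m : ℝ) ^ 4 ≤ 16 * (r : ℝ) ^ 4 := by
    calc (m : ℝ) ^ 4 ≤ (2 * (r : ℝ)) ^ 4 := pow_le_pow_left₀ hm0 (by linarith) 4
      _ = 16 * (r : ℝ) ^ 4 := by ring
  have h8 : κ / 64 * (m : ℝ) ^ 4 ≤ κ / 4 * (r : ℝ) ^ 4 := by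
    calc κ / 64 * (m : ℝ) ^ 4 ≤ κ / 64 * (16 * (r : ℝ) ^ 4) :=
          mul_le_mul_of_nonneg_left h7 (by positivity)
      _ = κ / 4 * (r : ℝ) ^ 4 := by ring
  have h9 : (crK (r + 1) : ℝ) ≤ (D.cr : ℝ) := by linarith
  exact_mod_cast h9

end Pool.Agent.AIM
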