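import Pool.Agent.AIM.Gl

/-!
# AIM IM: strong immersions of a nearly complete graph in a graph of minimum degree `> (1+ε) r`

A strong immersion: edge-disjoint paths between the terminals; no path contains a terminal which is
not one of its ends.  At a terminal only the first edges of its own `≤ m - 1` paths are used.
-/

set_option autoImplicit false

namespace Pool.Agent.AIM

open Pool.Agent.ALB Pool.Agent.ALC

/-- `H` contains a strong immersion of `Γ`: terminals `y i` (different vertices) and for every edge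
`ij` of `Γ` (`i < j`) a path of `H` from `y i` to `y j` which contains no other terminal; the paths of
different edges of `Γ` have no common edge. -/
def SImm {V : Type} {m : ℕ} (Γ : SimpleGraph (Fin m)) (H : SimpleGraph V) : Prop :=
  ∃ (y : Fin m → V) (P : ∀ i j : Fin m, Γ.Adj i j → H.Walk (y i) (y j)), Function.Injective y ∧
    (∀ (i j : Fin m) (h : Γ.Adj i j), i < j →
      (P i j h).IsPath ∧ ∀ l : Fin m, y l ∈ (P i j h).support → l = i ∨ l = j) ∧
    (∀ (i j k l : Fin m) (h : Γ.Adj i j) (h' : Γ.Adj k l), i < j → k < l → (i, j) ≠ (k, l) →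
      ∀ e ∈ (P i j h).edges, e ∉ (P k l h').edges)

/-- a path has only one edge at its first vertex -/
private theorem path_end {V : Type} {H : SimpleGraph V} {u v : V} (W : H.Walk u v) (hW : W.IsPath)
    {x x' : V} (hx : s(u, x) ∈ W.edges) (hx' : s(u, x') ∈ W.edges) : x = x' := by
  cases W with
  | nil => simp at hx
  | @cons _ w _ h p =>
    rw [SimpleGraph.Walk.cons_isPath_iff] at hW
    have key : ∀ z, s(u, z) ∈ (SimpleGraph.Walk.cons h p).edges → z = w := by
      intro z hz
      rw [SimpleGraph.Walk.edges_cons, List.mem_cons] at hz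
      rcases hz with hz | hz
      · exact Sym2.congr_right.1 hz
      · exact absurd (p.fst_mem_support_of_mem_edges hz) hW.2
    rw [key x hx, key x' hx']

theorem casI {c : ℝ} (hc : Lim c) {C ε : ℝ} (hC : 0 < C) (hε : 0 < ε) :
    ∃ η : ℝ, 0 < η ∧ ∃ r₀ : ℕ, ∀ (V : Type) (_ : Fintype V) (H : SimpleGraph V) (D : Drw H),
      D.NoAdj → ∀ r : ℕ, r₀ ≤ r → (Fintype.card V : ℝ) ≤ C * (r : ℝ) →
      (∀ x : V, (1 + ε) * (r : ℝ) ≤ ({y | H.Adj x y}.ncard : ℝ)) →
      ∀ m : ℕ, m ≤ r + 1 → ∀ Γ : SimpleGraph (Fin m),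
        (1 - η) * (r : ℝ) ^ 2 ≤ ({p : Fin m × Fin m | Γ.Adj p.1 p.2}.ncard : ℝ) →
        SImm Γ H → crK (r + 1) ≤ D.cr := by
  classical
  obtain ⟨η₁, hη₁, r₁, H1⟩ := glI hc hC (show (0 : ℝ) < ε / 4 by positivity)
  obtain ⟨η, hη, hηa, hηb⟩ : ∃ η : ℝ, 0 < η ∧ η ≤ η₁ ∧ η ≤ 1 / 2 :=
    ⟨min η₁ (1 / 2), lt_min hη₁ (by norm_num), min_le_left _ _, min_le_right _ _⟩
  refine ⟨η, hη, r₁ + 1, ?_⟩
  intro V _ H D hD r hr hV hdeg m hm Γ hΓ ⟨y, P, hy, hP, hPd⟩
  have hr0 : (0 : ℝ) < (r : ℝ) := by exact_mod_cast (by omega : 0 < r)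
  set E : Sym2 (Fin m) → Finset (Sym2 V) := fun p => Finset.univ.filter fun e : Sym2 V =>
    ∃ (i j : Fin m) (h : Γ.Adj i j), i < j ∧ p = s(i, j) ∧ e ∈ (P i j h).edges with hEd
  have hEmem : ∀ (p : Sym2 (Fin m)) (e : Sym2 V), e ∈ E p ↔
      ∃ (i j : Fin m) (h : Γ.Adj i j), i < j ∧ p = s(i, j) ∧ e ∈ (P i j h).edges := by
    intro p e
    rw [hEd]
    simp only [Finset.mem_filter, Finset.mem_univ, true_and]
  have hE : ∀ p ∈ Γ.edgeSet, ∀ e ∈ E p, e ∈ H.edgeSet := by
    intro p _ e he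
    obtain ⟨i, j, h, _, _, he⟩ := (hEmem p e).1 he
    exact (P i j h).edges_subset_edgeSet he
  have hW : ∀ i j, Γ.Adj i j → ∃ W : H.Walk (y i) (y j), ∀ e ∈ W.edges, e ∈ E s(i, j) := by
    intro i j h
    rcases lt_or_gt_of_ne h.ne with hij | hij
    · exact ⟨P i j h, fun e he => (hEmem _ e).2 ⟨i, j, h, hij, rfl, he⟩⟩
    · refine ⟨(P j i h.symm).reverse, fun e he => (hEmem _ e).2 ⟨j, i, h.symm, hij, Sym2.eq_swap, ?_⟩⟩
      rw [SimpleGraph.Walk.edges_reverse, List.mem_reverse] at he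
      exact he
  have hT : ∀ i j, Γ.Adj i j → ∀ e ∈ E s(i, j), ∀ x ∈ e, x ∈ Set.range y → x = y i ∨ x = y j := by
    rintro i j _ e he x hx ⟨l, rfl⟩
    obtain ⟨i', j', h', hij', hp, he'⟩ := (hEmem _ e).1 he
    have h1 : y l ∈ (P i' j' h').support := by
      obtain ⟨z, rfl⟩ := hx
      exact (P i' j' h').fst_mem_support_of_mem_edges he'
    have h2 := (hP i' j' h' hij').2 l h1
    rw [Sym2.eq_iff] at hp
    rcases hp with ⟨h3, h4⟩ | ⟨h3, h4⟩ <;> rcases h2 with h5 | h5
    · left; rw [h5, h3]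
    · right; rw [h5, h4]
    · right; rw [h5, h4]
    · left; rw [h5, h3]
  have hdis : ∀ p ∈ Γ.edgeSet, ∀ q ∈ Γ.edgeSet, p ≠ q → ∀ e ∈ E p, e ∉ E q := by
    intro p _ q _ hpq e he he'
    obtain ⟨i, j, h, hij, hp, he⟩ := (hEmem _ e).1 he
    obtain ⟨k, l, h', hkl, hq, he'⟩ := (hEmem _ e).1 he'
    refine hPd i j k l h h' hij hkl ?_ e he he'
    intro heq
    apply hpq
    rw [hp, hq]
    have h1 : i = k := congrArg Prod.fst heq
    have h2 : j = l := congrArg Prod.snd heq
    rw [h1, h2]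
  set Λ : Finset (Sym2 V) := (ed H).filter fun e => ∀ p ∈ Γ.edgeSet, e ∉ E p with hΛd
  have hΛ : ∀ e ∈ Λ, e ∈ H.edgeSet := fun e he => mem_ed.1 (Finset.mem_filter.1 he).1
  have hEΛ : ∀ p ∈ Γ.edgeSet, ∀ e ∈ E p, e ∉ Λ := by
    intro p hp e he hΛe
    exact (Finset.mem_filter.1 hΛe).2 p hp he
  -- the unused edges at a terminal
  have hterm : ∀ i : Fin m, {x | H.Adj (y i) x}.ncard ≤
      (Λ.filter fun e => y i ∈ e).card + (m - 1) := by
    intro i
    set S : Finset V := Finset.univ.filter fun x => H.Adj (y i) x with hS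
    have hSc : {x | H.Adj (y i) x}.ncard = S.card := by
      rw [← Set.ncard_coe_finset]
      congr 1
      ext x
      simp [hS]
    rw [hSc]
    set S1 : Finset V := S.filter fun x => s(y i, x) ∈ Λ with hS1
    set S2 : Finset V := S.filter fun x => ¬ s(y i, x) ∈ Λ with hS2
    have hsplit : S.card = S1.card + S2.card := (Finset.card_filter_add_card_filter_not _).symm
    have h1 : S1.card ≤ (Λ.filter fun e => y i ∈ e).card := by
      refine Finset.card_le_card_of_injOn (fun x => s(y i, x)) ?_ ?_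
      · intro x hx
        have hx' := (Finset.mem_filter.1 (Finset.mem_coe.1 hx)).2
        exact Finset.mem_coe.2 (Finset.mem_filter.2 ⟨hx', Sym2.mem_mk_left _ _⟩)
      · intro x _ x' _ hxx
        exact Sym2.congr_right.1 hxx
    have h2 : S2.card ≤ m - 1 := by
      have hex : ∀ x ∈ S2, ∃ j : Fin m, j ≠ i ∧ s(y i, x) ∈ E s(i, j) ∧ Γ.Adj i j := by
        intro x hx
        obtain ⟨hx1, hx2⟩ := Finset.mem_filter.1 hx
        have hadj : H.Adj (y i) x := (Finset.mem_filter.1 hx1).2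
        rw [hΛd, Finset.mem_filter] at hx2
        push Not at hx2
        obtain ⟨p, hp, hpe⟩ := hx2 (mem_ed.2 hadj)
        induction p using Sym2.ind with
        | _ a b =>
          have hab : Γ.Adj a b := hp
          have h3 := hT a b hab _ hpe (y i) (Sym2.mem_mk_left _ _) ⟨i, rfl⟩
          rcases h3 with h3 | h3
          · have h4 := hy h3
            subst h4
            exact ⟨b, hab.ne', hpe, hab⟩
          · have h4 := hy h3
            subst h4
            refine ⟨a, hab.ne, ?_, hab.symm⟩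
            rw [Sym2.eq_swap]
            exact hpe
      have : Nonempty (Fin m) := ⟨i⟩
      choose! g hg using hex
      have hinj : Set.InjOn g (S2 : Set V) := by
        intro x hx x' hx' hxx
        obtain ⟨hne, hx1, hadj⟩ := hg x (Finset.mem_coe.1 hx)
        obtain ⟨_, hx2, _⟩ := hg x' (Finset.mem_coe.1 hx')
        rw [← hxx] at hx2
        obtain ⟨a, b, h, hab, hp, he⟩ := (hEmem _ _).1 hx1
        obtain ⟨a', b', h', hab', hp', he'⟩ := (hEmem _ _).1 hx2
        have h3 : a = a' ∧ b = b' := by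
          rw [hp, Sym2.eq_iff] at hp'
          rcases hp' with h4 | ⟨h4, h5⟩
          · exact h4
          · exfalso
            rw [h4, h5] at hab
            exact absurd hab (lt_asymm hab')
        obtain ⟨rfl, rfl⟩ := h3
        rw [Sym2.eq_iff] at hp
        rcases hp with ⟨h4, h5⟩ | ⟨h4, h5⟩
        · subst h4
          exact path_end (P i b h) (hP i b h hab).1 he he'
        · subst h4
          have h6 : ((P a i h).reverse).IsPath := (hP a i h hab).1.reverse
          refine path_end (P a i h).reverse h6 ?_ ?_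
          · rw [SimpleGraph.Walk.edges_reverse, List.mem_reverse]
            exact he
          · rw [SimpleGraph.Walk.edges_reverse, List.mem_reverse]
            exact he'
      have h3 := Finset.card_le_card_of_injOn g (s := S2) (t := Finset.univ.erase i)
        (fun x hx => by
          rw [Finset.mem_coe, Finset.mem_erase]
          exact ⟨(hg x (Finset.mem_coe.1 hx)).1, Finset.mem_univ _⟩) hinj
      rwa [Finset.card_erase_of_mem (Finset.mem_univ _), Finset.card_univ, Fintype.card_fin] at h3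
    omega
  -- each edge contains at most two terminals
  have hdouble : ∑ i : Fin m, (Λ.filter fun e => y i ∈ e).card ≤ 2 * Λ.card := by
    have h1 : ∀ i : Fin m, (Λ.filter fun e => y i ∈ e).card = ∑ e ∈ Λ, if y i ∈ e then 1 else 0 :=
      fun i => by rw [Finset.card_filter]
    rw [Finset.sum_congr rfl fun i _ => h1 i, Finset.sum_comm]
    have h2 : ∀ e ∈ Λ, ∑ i : Fin m, (if y i ∈ e then 1 else 0) ≤ 2 := by
      intro e _
      rw [← Finset.card_filter]
      induction e using Sym2.ind with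
      | _ a b =>
        have h3 := Finset.card_le_card_of_injOn y
          (s := Finset.univ.filter fun i : Fin m => y i ∈ s(a, b)) (t := {a, b})
          (fun i hi => by
            have h4 := (Finset.mem_filter.1 (Finset.mem_coe.1 hi)).2
            rw [Sym2.mem_iff] at h4
            rw [Finset.mem_coe, Finset.mem_insert, Finset.mem_singleton]
            exact h4) hy.injOn
        exact h3.trans Finset.card_le_two
    calc ∑ e ∈ Λ, ∑ i : Fin m, (if y i ∈ e then 1 else 0) ≤ ∑ e ∈ Λ, 2 := Finset.sum_le_sum h2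
      _ = 2 * Λ.card := by rw [Finset.sum_const, smul_eq_mul, mul_comm]
  -- the total
  have hm0 : (0 : ℝ) ≤ (m : ℝ) := Nat.cast_nonneg _
  have hmm : ({p : Fin m × Fin m | Γ.Adj p.1 p.2}.ncard : ℝ) ≤ (m : ℝ) ^ 2 := by
    have h1 : {p : Fin m × Fin m | Γ.Adj p.1 p.2}.ncard ≤ m * m := by
      have h2 := Set.ncard_le_ncard (Set.subset_univ {p : Fin m × Fin m | Γ.Adj p.1 p.2})
        (Set.toFinite _)
      rwa [Set.ncard_univ, Nat.card_eq_fintype_card, Fintype.card_prod, Fintype.card_fin] at h2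
    have h2 : (({p : Fin m × Fin m | Γ.Adj p.1 p.2}.ncard : ℕ) : ℝ) ≤ ((m * m : ℕ) : ℝ) := by
      exact_mod_cast h1
    push_cast at h2
    rw [pow_two]
    exact h2
  have hmr : (r : ℝ) / 2 ≤ (m : ℝ) := by
    have h1 : ((r : ℝ) / 2) ^ 2 ≤ (m : ℝ) ^ 2 := by nlinarith [sq_nonneg (r : ℝ)]
    exact (abs_le_of_sq_le_sq' h1 hm0).2
  have hcard : ε / 4 * (r : ℝ) ^ 2 ≤ (Λ.card : ℝ) := by
    have h1 : ∀ i : Fin m, ε * (r : ℝ) ≤ ((Λ.filter fun e => y i ∈ e).card : ℝ) := by
      intro i
      have h2 := hdeg (y i)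
      have h3 : ({x | H.Adj (y i) x}.ncard : ℝ) ≤
          ((Λ.filter fun e => y i ∈ e).card : ℝ) + (r : ℝ) := by
        have h4 : {x | H.Adj (y i) x}.ncard ≤ (Λ.filter fun e => y i ∈ e).card + r :=
          (hterm i).trans (by omega)
        exact_mod_cast h4
      linarith
    have h2 : (m : ℝ) * (ε * (r : ℝ)) ≤ ((∑ i : Fin m, (Λ.filter fun e => y i ∈ e).card : ℕ) : ℝ) := by
      rw [Nat.cast_sum]
      calc (m : ℝ) * (ε * (r : ℝ)) = ∑ _i : Fin m, ε * (r : ℝ) := by
            rw [Finset.sum_const, Finset.card_univ, Fintype.card_fin, nsmul_eq_mul]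
        _ ≤ _ := Finset.sum_le_sum fun i _ => h1 i
    have h3 : ((∑ i : Fin m, (Λ.filter fun e => y i ∈ e).card : ℕ) : ℝ) ≤ 2 * (Λ.card : ℝ) := by
      exact_mod_cast hdouble
    have h4 : (r : ℝ) / 2 * (ε * (r : ℝ)) ≤ (m : ℝ) * (ε * (r : ℝ)) :=
      mul_le_mul_of_nonneg_right hmr (by positivity)
    nlinarith
  exact H1 V inferInstance H D hD r (by omega) hV m hm Γ y E Λ hy
    (le_trans (mul_le_mul_of_nonneg_right (by linarith) (by positivity)) hΓ) hE hW hT hdis hΛ hEΛ
    hcard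

end Pool.Agent.AIM
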