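import Pool.Agent.AIM.Core
import Pool.Agent.ALB.Str
import Pool.Agent.ALB.FrzIn
import Pool.Agent.ALB.FrzOut

/-! # AIM MAIN: the main theorem in the form of the frozen statement -/

set_option autoImplicit false

namespace Pool.Agent.AIM

open Pool.Agent.ALB Pool.Agent.ALC

theorem main : ∃ ε : ℝ, 0 < ε ∧ ∃ t₀ : ℕ, ∀ (n : ℕ) (G : SimpleGraph (Fin n)) (t : ℕ), t₀ ≤ t →
    ∀ A : Finset (Fin n),
      ¬ (G.comap (Subtype.val : {x // x ∈ A} → Fin n)).Colorable (t - 1) →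
      (∀ v ∈ A, (G.comap (Subtype.val : {x // x ∈ A.erase v} → Fin n)).Colorable (t - 1)) →
      ∀ (m : ℕ) (Γ : SimpleGraph (Fin m)), m ≤ t →
        (1 - ε) * (t : ℝ) ^ 2 ≤ ({p : Fin m × Fin m | Γ.Adj p.1 p.2}.ncard : ℝ) →
        SImm Γ (G.comap (Subtype.val : {x // x ∈ A} → Fin n)) →
      ∀ (pos : Fin n → ℝ × ℝ) (γ : ∀ u v : Fin n, Path (pos u) (pos v)), IsFrz G pos γ →
        ∃ (pos' : Fin t → ℝ × ℝ) (γ' : ∀ u v : Fin t, Path (pos' u) (pos' v)),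
          IsFrz (⊤ : SimpleGraph (Fin t)) pos' γ' ∧
          (XS (⊤ : SimpleGraph (Fin t)) pos' γ').ncard ≤ (XS G pos γ).ncard := by
  classical
  obtain ⟨ε, hε, k0, h0⟩ := core
  refine ⟨ε, hε, k0 + 2, ?_⟩
  intro n G t ht A hA1 hA2 m Γ hm hΓ hI pos γ hf
  obtain ⟨D, hD⟩ := frz_in hf
  have hr0 : 0 < t - 1 := by omega
  have hvc : VC (G.comap (Subtype.val : {x // x ∈ A} → Fin n)) (t - 1) := by
    refine ⟨hA1, fun v => ?_⟩
    obtain ⟨c⟩ := hA2 v.1 v.2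
    have hmem : ∀ x : {x // x ∈ A}, x ≠ v → x.1 ∈ A.erase v.1 := fun x hx =>
      Finset.mem_erase.2 ⟨fun h => hx (Subtype.ext h), x.2⟩
    refine ⟨fun x => if h : x = v then ⟨0, hr0⟩ else c ⟨x.1, hmem x h⟩, ?_⟩
    intro x y hx hy hxy
    simp only [dif_neg hx, dif_neg hy]
    exact c.valid (v := ⟨x.1, hmem x hx⟩) (w := ⟨y.1, hmem y hy⟩) hxy
  have hle : crK t ≤ D.cr := h0 n G t (by omega) A hvc m hm Γ hΓ hI D
  obtain ⟨D', hD'⟩ := exists_opt t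
  obtain ⟨pos', γ', hfz, hcr⟩ := frz_out D'
  exact ⟨pos', γ', hfz, by rw [hcr, hD', ← hD]; exact hle⟩

end Pool.Agent.AIM
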